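import Mathlib
import Pool.Agent.H373R2.T7.MinorMu
import Pool.Agent.T9h54.LZ.Spec2

/-!
# LZ, piece (M1): minor arcs for the Moebius function with a power saving

From the block estimate `Pool.Agent.H373R2.T7.block_mu` (Vaughan's identity).
-/

set_option autoImplicit false

namespace Pool.Agent.T9h51.LZ

open Finset
open Pool.Agent.H373R2.T7 Pool.Agent.H807R2.Dav

/-- the terms of `F` -/
noncomputable def tm (x : ℝ) (n : ℕ) : ℂ :=
  (((ArithmeticFunction.moebius n : ℤ) : ℝ) : ℂ) * ee ((n : ℝ) * x)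

lemma F_eq (R : ℕ) (x : ℝ) : Pool.Agent.T9h54.LZ.F R x = ∑ n ∈ Icc 1 R, tm x n := by
  unfold Pool.Agent.T9h54.LZ.F tm ee
  apply sum_congr rfl
  intro n _
  push_cast
  congr 2
  ring

lemma norm_tm (x : ℝ) (n : ℕ) : ‖tm x n‖ ≤ 1 := by
  unfold tm
  rw [norm_mul, norm_ee, mul_one, Complex.norm_real, Real.norm_eq_abs]
  exact_mod_cast ArithmeticFunction.abs_moebius_le_one

lemma triv (M : ℕ) (x : ℝ) : ‖∑ n ∈ Icc 1 M, tm x n‖ ≤ M := by
  refine (norm_sum_le _ _).trans ?_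
  refine (sum_le_sum (fun n _ => norm_tm x n)).trans ?_
  rw [sum_const, Nat.card_Icc, nsmul_eq_mul, Nat.add_sub_cancel, mul_one]

lemma split (M N : ℕ) (h : N ≤ M) (x : ℝ) :
    ‖∑ n ∈ Icc 1 M, tm x n‖ ≤ ‖∑ n ∈ Icc 1 N, tm x n‖ + ‖∑ n ∈ Ioc N M, tm x n‖ := by
  have h5 : ∑ n ∈ Icc 1 M, tm x n = ∑ n ∈ Icc 1 N, tm x n + ∑ n ∈ Ioc N M, tm x n := by
    rw [← sum_union (by
      rw [disjoint_left]; intro n hn hn'
      rw [mem_Icc] at hn; rw [mem_Ioc] at hn'; omega)]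
    congr 1
    ext n
    rw [mem_union, mem_Icc, mem_Icc, mem_Ioc]
    omega
  rw [h5]
  exact norm_add_le _ _

/-- one block -/
lemma blk {η : ℝ} (hη : 0 < η) (hη4 : η < 1 / 4) {R : ℕ} (hR : 1 ≤ R) {x : ℝ} {q : ℕ} {a : ℤ} (hq : 1 ≤ q)
    (hc : IsCoprime a (q : ℤ)) (hx : |x - a / q| ≤ 1 / (q : ℝ) ^ 2) (h1 : (R : ℝ) ^ η ≤ q)
    (h2 : (q : ℝ) ≤ (R : ℝ) ^ (1 - η)) {N N' : ℕ} (hN1 : (R : ℝ) ^ (1 - η / 2) ≤ N) (hNR : N ≤ R)
    (hNN' : N ≤ N') (hN' : N' ≤ 2 * N) :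
    ‖∑ n ∈ Ioc N N', tm x n‖ ≤ 563 * (1 + Real.log (4 * R)) ^ 5 * (R : ℝ) ^ (1 - η / 2) := by
  have hR1 : (1 : ℝ) ≤ R := by exact_mod_cast hR
  have hR0 : (0 : ℝ) < R := by linarith
  have hq1 : (1 : ℝ) ≤ q := by exact_mod_cast hq
  have hq0 : (0 : ℝ) < q := by linarith
  set L : ℝ := 1 + Real.log (4 * R) with hL
  have hL1 : 1 ≤ L := by
    have := Real.log_nonneg (show (1 : ℝ) ≤ 4 * R by linarith)
    linarith
  have hNr : (N : ℝ) ≤ R := by exact_mod_cast hNR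
  have hRe1 : (1 : ℝ) ≤ (R : ℝ) ^ (1 - η / 2) := Real.one_le_rpow hR1 (by linarith)
  have hN0 : (1 : ℝ) ≤ N := by linarith
  have hNn : 1 ≤ N := by exact_mod_cast hN0
  have hRη : (1 : ℝ) ≤ (R : ℝ) ^ η := Real.one_le_rpow hR1 hη.le
  set U : ℕ := ⌊(R : ℝ) ^ η⌋₊ with hU
  have hU1 : 1 ≤ U := by
    rw [hU]; exact Nat.one_le_floor_iff _ |>.2 hRη
  have hUr1 : (1 : ℝ) ≤ U := by exact_mod_cast hU1
  have hUle : (U : ℝ) ≤ (R : ℝ) ^ η := Nat.floor_le (by positivity)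
  have hUge : (R : ℝ) ^ η / 2 ≤ U := by
    have := Nat.lt_floor_add_one ((R : ℝ) ^ η)
    rw [← hU] at this
    linarith
  have hUU : ((U * U : ℕ) : ℝ) ≤ (R : ℝ) ^ (1 - η) := by
    push_cast
    calc (U : ℝ) * U ≤ (R : ℝ) ^ η * (R : ℝ) ^ η := by gcongr
      _ = (R : ℝ) ^ (η + η) := by rw [Real.rpow_add hR0]
      _ ≤ (R : ℝ) ^ (1 - η) := Real.rpow_le_rpow_of_exponent_le hR1 (by linarith)
  have hUUN : U * U ≤ N := by
    have : ((U * U : ℕ) : ℝ) ≤ N := by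
      refine hUU.trans (le_trans ?_ hN1)
      exact Real.rpow_le_rpow_of_exponent_le hR1 (by linarith)
    exact_mod_cast this
  have key := block_mu hq hc hx N N' U hNn hNN' hN' hU1 hUUN
  have hlogq : Real.log q ≤ Real.log (4 * R) := by
    apply Real.log_le_log hq0
    have : (R : ℝ) ^ (1 - η) ≤ (R : ℝ) ^ (1 : ℝ) := Real.rpow_le_rpow_of_exponent_le hR1 (by linarith)
    rw [Real.rpow_one] at this
    linarith
  have hlogq0 : 0 ≤ Real.log q := Real.log_nonneg hq1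
  have hlq : 1 + Real.log q ≤ L := by linarith
  have hlN : 1 + Real.log (4 * N) ≤ L := by
    have := Real.log_le_log (by linarith) (show (4 : ℝ) * N ≤ 4 * R by linarith)
    linarith
  have hlN0 : 0 ≤ Real.log (4 * (N : ℝ)) := Real.log_nonneg (by linarith)
  have hE : (R : ℝ) ^ η * (R : ℝ) ^ (1 - η) = R := by
    rw [← Real.rpow_add hR0]; simp
  have hNq : (N : ℝ) / q ≤ (R : ℝ) ^ (1 - η) := by
    rw [div_le_iff₀ hq0]
    calc (N : ℝ) ≤ R := hNr
      _ = (R : ℝ) ^ (1 - η) * (R : ℝ) ^ η := by rw [mul_comm, hE]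
      _ ≤ (R : ℝ) ^ (1 - η) * q := by gcongr
  have hNU : (N : ℝ) / U ≤ 2 * (R : ℝ) ^ (1 - η) := by
    rw [div_le_iff₀ (by linarith)]
    calc (N : ℝ) ≤ R := hNr
      _ = 2 * (R : ℝ) ^ (1 - η) * ((R : ℝ) ^ η / 2) := by
        rw [show 2 * (R : ℝ) ^ (1 - η) * ((R : ℝ) ^ η / 2) = (R : ℝ) ^ η * (R : ℝ) ^ (1 - η) by ring, hE]
      _ ≤ 2 * (R : ℝ) ^ (1 - η) * U := by gcongr
  have hsq : ((R : ℝ) ^ (1 - η / 2)) ^ 2 = R * (R : ℝ) ^ (1 - η) := by
    rw [← Real.rpow_natCast, ← Real.rpow_mul hR0.le]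
    nth_rewrite 2 [← Real.rpow_one (R : ℝ)]
    rw [← Real.rpow_add hR0]
    congr 1
    push_cast
    ring
  set Y : ℝ := (R : ℝ) ^ (1 - η / 2) with hY
  set Z : ℝ := (R : ℝ) ^ (1 - η) with hZ
  have hZ0 : 0 ≤ Z := by positivity
  have b1 : 8 * (1 + Real.log (4 * N)) ^ 4 * Real.sqrt (672 * (1 + Real.log q) *
      (N * ((N : ℝ) / q + N / U + q))) ≤ 416 * L ^ 5 * Y := by
    have hs : Real.sqrt (672 * (1 + Real.log q) * (N * ((N : ℝ) / q + N / U + q))) ≤ 52 * L * Y := by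
      rw [Real.sqrt_le_left (by positivity)]
      calc 672 * (1 + Real.log q) * (N * ((N : ℝ) / q + N / U + q))
          ≤ 672 * L * (R * (Z + 2 * Z + Z)) := by gcongr
        _ = 2688 * L * (R * Z) := by ring
        _ ≤ 2704 * (L * L) * (R * Z) := by
            apply mul_le_mul_of_nonneg_right _ (by positivity)
            nlinarith
        _ = (52 * L * Y) ^ 2 := by rw [mul_pow, hsq]; ring
    calc 8 * (1 + Real.log (4 * N)) ^ 4 * Real.sqrt (672 * (1 + Real.log q) *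
          (N * ((N : ℝ) / q + N / U + q))) ≤ 8 * L ^ 4 * (52 * L * Y) := by
          gcongr
      _ = 416 * L ^ 5 * Y := by ring
  have hlUU : Real.log ((U * U : ℕ) : ℝ) ≤ Real.log R := by
    apply Real.log_le_log
    · have : 1 ≤ U * U := Nat.mul_pos hU1 hU1
      exact_mod_cast this
    · have : (R : ℝ) ^ (1 - η) ≤ (R : ℝ) ^ (1 : ℝ) := Real.rpow_le_rpow_of_exponent_le hR1 (by linarith)
      rw [Real.rpow_one] at this
      exact hUU.trans this
  have hlR : Real.log R ≤ Real.log (4 * R) := Real.log_le_log hR0 (by linarith)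
  have hlR0 : 0 ≤ Real.log R := Real.log_nonneg hR1
  have hlUU0 : 0 ≤ Real.log ((U * U : ℕ) : ℝ) := Real.log_natCast_nonneg _
  have hlg : ((Nat.log 2 (U * U) : ℕ) : ℝ) + 1 ≤ 2 * L := by
    have h4 : (2 : ℝ) ^ Nat.log 2 (U * U) ≤ ((U * U : ℕ) : ℝ) := by
      exact_mod_cast Nat.pow_log_le_self 2 (by positivity)
    have h7 := Real.log_le_log (by positivity) h4
    rw [Real.log_pow] at h7
    have h8 := Real.log_two_gt_d9
    have h9 : (0 : ℝ) ≤ Nat.log 2 (U * U) := Nat.cast_nonneg _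
    nlinarith
  have b2 : Real.sqrt (6 * N * (1 + Real.log (U * U : ℕ)) ^ 4) *
        Real.sqrt (600 * (Nat.log 2 (U * U) + 1 : ℝ) * ((N : ℝ) / q + (U * U : ℕ) + q) * (1 + Real.log q)) ≤
        147 * L ^ 5 * Y := by
    rw [← Real.sqrt_mul (by positivity), Real.sqrt_le_left (by positivity)]
    calc 6 * N * (1 + Real.log (U * U : ℕ)) ^ 4 * (600 * (Nat.log 2 (U * U) + 1 : ℝ) *
          ((N : ℝ) / q + (U * U : ℕ) + q) * (1 + Real.log q))
        ≤ 6 * R * L ^ 4 * (600 * (2 * L) * (Z + Z + Z) * L) := by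
          gcongr
          linarith
      _ = 21600 * L ^ 6 * (R * Z) := by ring
      _ ≤ 21609 * L ^ 10 * (R * Z) := by
          apply mul_le_mul_of_nonneg_right _ (by positivity)
          have : L ^ 6 ≤ L ^ 10 := pow_le_pow_right₀ hL1 (by norm_num)
          have h0 : 0 ≤ L ^ 6 := by positivity
          nlinarith
      _ = (147 * L ^ 5 * Y) ^ 2 := by rw [mul_pow, hsq]; ring
  refine le_trans key ?_
  calc _ ≤ 416 * L ^ 5 * Y + 147 * L ^ 5 * Y := add_le_add b1 b2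
    _ = 563 * L ^ 5 * Y := by ring

/-- **(M1)** -/
theorem m1 : Pool.Agent.T9h54.LZ.S_M1 := by
  intro η hη hη4
  set ε : ℝ := η / 24 with hε
  have hε0 : 0 < ε := by positivity
  set K : ℝ := 1 + 4 ^ ε / ε with hK
  have hK1 : 1 ≤ K := by
    have : (0 : ℝ) ≤ 4 ^ ε / ε := by positivity
    linarith
  refine ⟨η / 4, by positivity, 1130 * K ^ 6, fun R x q a hR hq hc hx h1 h2 => ?_⟩
  have hR1 : (1 : ℝ) ≤ R := by exact_mod_cast hR
  have hR0 : (0 : ℝ) < R := by linarith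
  rw [F_eq]
  set L : ℝ := 1 + Real.log (4 * R) with hL
  have hL1 : 1 ≤ L := by
    have := Real.log_nonneg (show (1 : ℝ) ≤ 4 * R by linarith)
    linarith
  set Y : ℝ := (R : ℝ) ^ (1 - η / 2) with hY
  have hY1 : 1 ≤ Y := Real.one_le_rpow hR1 (by linarith)
  have ind : ∀ k M : ℕ, M ≤ 2 ^ k → M ≤ R →
      ‖∑ n ∈ Icc 1 M, tm x n‖ ≤ 2 * Y + k * (563 * L ^ 5 * Y) := by
    intro k
    induction k with
    | zero =>
      intro M hM _
      have h3 := triv M x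
      have h4 : (M : ℝ) ≤ 1 := by
        rw [pow_zero] at hM
        exact_mod_cast hM
      push_cast
      linarith
    | succ k ih =>
      intro M hM hMR
      by_cases hs : (M : ℝ) ≤ 2 * Y
      · have h3 := triv M x
        have : 0 ≤ ((k + 1 : ℕ) : ℝ) * (563 * L ^ 5 * Y) := by positivity
        linarith
      · push Not at hs
        have hM2 : M ≤ 2 * ((M + 1) / 2) := by omega
        have hM2r : (M : ℝ) ≤ 2 * (((M + 1) / 2 : ℕ) : ℝ) := by exact_mod_cast hM2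
        have hM1 : 1 ≤ M := by
          have : (0 : ℝ) < M := by linarith
          exact_mod_cast this
        have h3 := ih ((M + 1) / 2) (by rw [pow_succ] at hM; omega) (by omega)
        have h4 := blk hη hη4 hR hq hc hx h1 h2 (N := (M + 1) / 2) (N' := M) (by
          rw [← hY]; linarith) (by omega) (by omega) (by omega)
        have h5 := split M ((M + 1) / 2) (by omega) x
        rw [← hL, ← hY] at h4
        push_cast
        linarith
  have h3 := ind (Nat.clog 2 R) R (Nat.le_pow_clog (by norm_num) R) le_rfl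
  have hclog : ((Nat.clog 2 R : ℕ) : ℝ) ≤ 2 * L - 1 := by
    have h4 : Nat.clog 2 R ≤ Nat.log 2 R + 1 := Nat.clog_le_of_le_pow (Nat.lt_pow_succ_log_self (by norm_num) R).le
    have h5 : (2 : ℝ) ^ Nat.log 2 R ≤ (R : ℝ) := by
      exact_mod_cast Nat.pow_log_le_self 2 (by omega)
    have h7 := Real.log_le_log (by positivity) h5
    rw [Real.log_pow] at h7
    have h8 := Real.log_two_gt_d9
    have h9 : (0 : ℝ) ≤ Nat.log 2 R := Nat.cast_nonneg _
    have h10 : ((Nat.clog 2 R : ℕ) : ℝ) ≤ (Nat.log 2 R : ℝ) + 1 := by exact_mod_cast h4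
    have h11 : Real.log (4 * R) = Real.log 4 + Real.log R := Real.log_mul (by norm_num) hR0.ne'
    have h12 : 0 ≤ Real.log (4 : ℝ) := Real.log_nonneg (by norm_num)
    have h13 : Real.log (4 : ℝ) = 2 * Real.log 2 := by
      rw [show (4 : ℝ) = 2 ^ 2 by norm_num, Real.log_pow]; push_cast; ring
    nlinarith
  have hLK : L ≤ K * (R : ℝ) ^ ε := by
    have h4 := Real.log_le_rpow_div (show (0 : ℝ) ≤ 4 * R by positivity) hε0
    rw [Real.mul_rpow (by norm_num) hR0.le] at h4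
    have h5 : (1 : ℝ) ≤ (R : ℝ) ^ ε := Real.one_le_rpow hR1 hε0.le
    calc L ≤ (R : ℝ) ^ ε + 4 ^ ε * (R : ℝ) ^ ε / ε := by linarith
      _ = K * (R : ℝ) ^ ε := by rw [hK]; ring
  have hL6 : L ^ 6 ≤ K ^ 6 * (R : ℝ) ^ (η / 4) := by
    calc L ^ 6 ≤ (K * (R : ℝ) ^ ε) ^ 6 := by gcongr
      _ = K ^ 6 * (R : ℝ) ^ (η / 4) := by
        rw [mul_pow]
        congr 1
        rw [← Real.rpow_natCast, ← Real.rpow_mul hR0.le, hε]
        congr 1
        push_cast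
        ring
  calc ‖∑ n ∈ Icc 1 R, tm x n‖ ≤ 2 * Y + (Nat.clog 2 R : ℕ) * (563 * L ^ 5 * Y) := h3
    _ ≤ 2 * Y + (2 * L - 1) * (563 * L ^ 5 * Y) := by gcongr
    _ ≤ 1130 * L ^ 6 * Y := by
        have h5 : 1 ≤ L ^ 5 := one_le_pow₀ hL1
        have h6 : 1 ≤ L ^ 6 := one_le_pow₀ hL1
        have h7 : 0 ≤ (L ^ 6 - 1) * Y := mul_nonneg (by linarith) (by linarith)
        have h8 : 0 ≤ 563 * L ^ 5 * Y := by positivity
        nlinarith
    _ ≤ 1130 * (K ^ 6 * (R : ℝ) ^ (η / 4)) * Y := by gcongr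
    _ = 1130 * K ^ 6 * (R : ℝ) ^ (1 - η / 4) := by
        rw [hY, show 1130 * (K ^ 6 * (R : ℝ) ^ (η / 4)) * (R : ℝ) ^ (1 - η / 2) =
          1130 * K ^ 6 * ((R : ℝ) ^ (η / 4) * (R : ℝ) ^ (1 - η / 2)) by ring, ← Real.rpow_add hR0]
        congr 2
        ring

end Pool.Agent.T9h51.LZ
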